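import Pool.Agent.Helper2.LD.St1b

/-!
# LD project: one round of the later game
-/

set_option autoImplicit false

namespace Pool.Agent.Helper45.LD

open Pool.Agent.Helper2.LD

private theorem same_refl {K : Type} (f : Fb K) : Fb.same f f := by
  cases f <;> simp [Fb.same]

private theorem ext_full {K V : Type} {k : ℕ} {C : KCode k K} {lab : V → Finset K}
    {u v : FullV k C lab} (h1 : own u = own v) (h2 : fb u = fb v) : u = v :=
  Subtype.ext (Prod.ext h1 h2)

/-- Assembling the invariant of the next round. -/
private theorem step_of {K V V' : Type} {k : ℕ} {C : KCode k K} {S : SimpleGraph V}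
    {lab : V → Finset K} {S' : SimpleGraph V'} {lab' : V' → Finset K} {r : ℕ} {fl : Bool}
    {m1 m2 m3 : FullV k C lab × FullV k C lab'} {q : List (FullV k C lab × FullV k C lab')}
    (h : Inv k C S lab S' lab' (r + 1) fl m1 m2 m3 q)
    (v : FullV k C lab) (v' : FullV k C lab') (fl' : Bool)
    (hs : Fb.same (fb v) (fb v'))
    (ho : ∀ b ∈ q ++ [m3, m2, m1], (own v = own b.1 ↔ own v' = own b.2))
    (hg : ∀ b ∈ q ++ [m3, m2, m1], own v = own b.1 →
      ((fb v).gid = (fb b.1).gid ↔ (fb v').gid = (fb b.2).gid))
    (he : ∀ b ∈ q ++ [m3, m2, m1], (v = b.1 ↔ v' = b.2))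
    (hd : ∀ b ∈ q ++ [m3, m2, m1], ∀ d : ℕ,
      ∀ oa : ℕ, (oa = 4 ∨ ¬ (fl' = true ∧ own v = own m3.1)) →
      ∀ ob : ℕ, (ob = 4 ∨ ¬ (fl' = true ∧ own b.1 = own m3.1)) → d + oa + ob ≤ 2 ^ r →
      ((brG K S (HH k)).edist (own v) (own b.1) = (d : ℕ∞) ↔
        (brG K S' (HH k)).edist (own v') (own b.2) = (d : ℕ∞)))
    (hold : ∀ a ∈ q ++ [m3, m2, m1], ∀ b ∈ q ++ [m3, m2, m1], ∀ d : ℕ,
      ∀ oa : ℕ, (oa = 4 ∨ ¬ (fl' = true ∧ own a.1 = own m3.1)) →
      ∀ ob : ℕ, (ob = 4 ∨ ¬ (fl' = true ∧ own b.1 = own m3.1)) → d + oa + ob ≤ 2 ^ r →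
      ((brG K S (HH k)).edist (own a.1) (own b.1) = (d : ℕ∞) ↔
        (brG K S' (HH k)).edist (own a.2) (own b.2) = (d : ℕ∞)))
    (hh : min (brH (own v)) (2 ^ r) = min (brH (own v')) (2 ^ r))
    (hx : (own v = own m1.1 ∨ own v = own m2.1) →
      fb v = fb v' ∧ brL lab (own v) = brL lab' (own v'))
    (hfl : fl' = true → fl = true ∧ own v ≠ own m3.1) :
    Inv k C S lab S' lab' r fl' m1 m2 m3 ((v, v') :: q) := by
  refine ⟨?_, ?_, ?_, ?_, ?_, ?_, ?_, ?_, ?_, ?_⟩
  · have := h.len
    simp only [List.length_cons]
    omega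
  · intro a ha
    rw [List.cons_append, List.mem_cons] at ha
    rcases ha with rfl | ha
    · exact hs
    · exact h.same a ha
  · intro a ha b hb
    rw [List.cons_append, List.mem_cons] at ha hb
    rcases ha with rfl | ha
    · rcases hb with rfl | hb
      · simp
      · exact ho b hb
    · rcases hb with rfl | hb
      · have := ho a ha
        constructor
        · intro h1
          exact (this.1 h1.symm).symm
        · intro h1
          exact (this.2 h1.symm).symm
      · exact h.own a ha b hb
  · intro a ha b hb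
    rw [List.cons_append, List.mem_cons] at ha hb
    rcases ha with rfl | ha
    · rcases hb with rfl | hb
      · intro _
        simp
      · exact hg b hb
    · rcases hb with rfl | hb
      · intro h1
        have := hg a ha h1.symm
        constructor
        · intro h2
          exact (this.1 h2.symm).symm
        · intro h2
          exact (this.2 h2.symm).symm
      · exact h.gid a ha b hb
  · intro a ha b hb
    rw [List.cons_append, List.mem_cons] at ha hb
    rcases ha with rfl | ha
    · rcases hb with rfl | hb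
      · simp
      · exact he b hb
    · rcases hb with rfl | hb
      · have := he a ha
        constructor
        · intro h2
          exact (this.1 h2.symm).symm
        · intro h2
          exact (this.2 h2.symm).symm
      · exact h.eq a ha b hb
  · intro a ha b hb d oa hoa ob hob hsum
    rw [List.cons_append, List.mem_cons] at ha hb
    rcases ha with rfl | ha
    · rcases hb with rfl | hb
      · simp only [SimpleGraph.edist_self]
      · exact hd b hb d oa hoa ob hob hsum
    · rcases hb with rfl | hb
      · have := hd a ha d ob hob oa hoa (by omega)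
        rw [SimpleGraph.edist_comm (u := own a.1), SimpleGraph.edist_comm (u := own a.2)]
        exact this
      · exact hold a ha b hb d oa hoa ob hob hsum
  · intro a ha
    rw [List.cons_append, List.mem_cons] at ha
    rcases ha with rfl | ha
    · exact hh
    · have h1 := h.ht a ha
      have h2 : (2 : ℕ) ^ (r + 1) = 2 * 2 ^ r := by ring
      rw [h2] at h1
      omega
  · intro a ha
    rw [List.cons_append, List.mem_cons] at ha
    rcases ha with rfl | ha
    · exact hx
    · exact h.ex a ha
  · exact h.m3l
  · intro h1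
    obtain ⟨h2, h3⟩ := hfl h1
    obtain ⟨h4, h5, h6, h7⟩ := h.fl h2
    refine ⟨h4, ?_, h6, h7⟩
    intro a ha
    rw [List.cons_append, List.mem_cons] at ha
    rcases ha with rfl | ha
    · intro h8
      exact absurd h8 h3
    · exact h5 a ha

/-- The old distances after dropping the special mark. -/
private theorem old_dist {K V V' : Type} {k : ℕ} {C : KCode k K} {S : SimpleGraph V}
    {lab : V → Finset K} {S' : SimpleGraph V'} {lab' : V' → Finset K} {r : ℕ} {fl : Bool}
    {m1 m2 m3 : FullV k C lab × FullV k C lab'} {q : List (FullV k C lab × FullV k C lab')}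
    (h : Inv k C S lab S' lab' (r + 1) fl m1 m2 m3 q) (hr : 2 ≤ r)
    (fl' : Bool) (hfl : fl' = fl ∨ fl' = false) :
    ∀ a ∈ q ++ [m3, m2, m1], ∀ b ∈ q ++ [m3, m2, m1], ∀ d : ℕ,
      ∀ oa : ℕ, (oa = 4 ∨ ¬ (fl' = true ∧ own a.1 = own m3.1)) →
      ∀ ob : ℕ, (ob = 4 ∨ ¬ (fl' = true ∧ own b.1 = own m3.1)) → d + oa + ob ≤ 2 ^ r →
      ((brG K S (HH k)).edist (own a.1) (own b.1) = (d : ℕ∞) ↔
        (brG K S' (HH k)).edist (own a.2) (own b.2) = (d : ℕ∞)) := by
  intro a ha b hb d oa hoa ob hob hsum
  have h2 : (2 : ℕ) ^ (r + 1) = 2 * 2 ^ r := by ring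
  have h4 : 4 ≤ 2 ^ r := by
    calc 4 = 2 ^ 2 := by norm_num
      _ ≤ 2 ^ r := Nat.pow_le_pow_right (by norm_num) hr
  rcases hfl with rfl | rfl
  · exact h.dist a ha b hb d oa hoa ob hob (by omega)
  · by_cases ha1 : own a.1 = own m3.1
    · by_cases hb1 : own b.1 = own m3.1
      · have h5 : own a.1 = own b.1 := ha1.trans hb1.symm
        have h6 : own a.2 = own b.2 := (h.own a ha b hb).1 h5
        rw [h5, h6]
        simp only [SimpleGraph.edist_self]
      · exact h.dist a ha b hb d 4 (Or.inl rfl) ob (Or.inr fun h7 => hb1 h7.2) (by omega)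
    · by_cases hb1 : own b.1 = own m3.1
      · exact h.dist a ha b hb d oa (Or.inr fun h7 => ha1 h7.2) 4 (Or.inl rfl) (by omega)
      · exact h.dist a ha b hb d oa (Or.inr fun h7 => ha1 h7.2) ob (Or.inr fun h7 => hb1 h7.2)
          (by omega)

/-- The new vertex has an old owner. -/
private theorem step_old {K V V' : Type} {k : ℕ} {C : KCode k K} {S : SimpleGraph V}
    {lab : V → Finset K} {S' : SimpleGraph V'} {lab' : V' → Finset K} {r : ℕ} {fl : Bool}
    {m1 m2 m3 : FullV k C lab × FullV k C lab'} {q : List (FullV k C lab × FullV k C lab')}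
    (h : Inv k C S lab S' lab' (r + 1) fl m1 m2 m3 q) (hr : 2 ≤ r)
    (v : FullV k C lab) (v' : FullV k C lab') (fl' : Bool) (hfl : fl' = fl ∨ fl' = false)
    (b0 : FullV k C lab × FullV k C lab') (hb0 : b0 ∈ q ++ [m3, m2, m1])
    (hv : own v = own b0.1) (hv' : own v' = own b0.2)
    (hs : Fb.same (fb v) (fb v'))
    (hg : ∀ b ∈ q ++ [m3, m2, m1], own v = own b.1 →
      ((fb v).gid = (fb b.1).gid ↔ (fb v').gid = (fb b.2).gid))
    (he : ∀ b ∈ q ++ [m3, m2, m1], own v = own b.1 → (fb v = fb b.1 ↔ fb v' = fb b.2))
    (hx : (own v = own m1.1 ∨ own v = own m2.1) → fb v = fb v')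
    (hf : fl' = true → own v ≠ own m3.1) :
    Inv k C S lab S' lab' r fl' m1 m2 m3 ((v, v') :: q) := by
  have hold := old_dist h hr fl' hfl
  have ho : ∀ b ∈ q ++ [m3, m2, m1], (own v = own b.1 ↔ own v' = own b.2) := by
    intro b hb
    rw [hv, hv']
    exact h.own b0 hb0 b hb
  refine step_of h v v' fl' hs ho hg ?_ ?_ hold ?_ ?_ ?_
  · intro b hb
    constructor
    · intro h1
      have h2 : own v = own b.1 := by rw [h1]
      exact ext_full ((ho b hb).1 h2) ((he b hb h2).1 (by rw [h1]))
    · intro h1
      have h2 : own v = own b.1 := (ho b hb).2 (by rw [h1])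
      exact ext_full h2 ((he b hb h2).2 (by rw [h1]))
  · intro b hb d oa hoa ob hob hsum
    rw [hv] at hoa ⊢
    rw [hv']
    exact hold b0 hb0 b hb d oa hoa ob hob hsum
  · have h1 := h.ht b0 hb0
    have h2 : (2 : ℕ) ^ (r + 1) = 2 * 2 ^ r := by ring
    rw [h2] at h1
    rw [hv, hv']
    omega
  · intro h1
    refine ⟨hx h1, ?_⟩
    have := (h.ex b0 hb0 (by rw [← hv]; exact h1)).2
    rw [hv, hv']
    exact this
  · intro h1
    refine ⟨?_, hf h1⟩
    rcases hfl with rfl | rfl
    · exact h1
    · exact absurd h1 (by simp)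

/-- The name of a new mark at a new owner. -/
private def newName {K : Type} : Fb K → Fb K
  | Fb.lf κ c _ => Fb.lf κ c 0
  | f => f

private theorem newName_ok {K : Type} {m : ℕ} {code : K → Finset ℕ} {L L' : Finset K} {f : Fb K}
    (hm : 1 ≤ m) (hf : Fb.ok m code L f) : Fb.ok m code L' (newName f) := by
  cases f with
  | root => trivial
  | a1 κ c => trivial
  | a2 κ c => trivial
  | r κ c => trivial
  | lf κ c i =>
    show 0 < m ∨ _
    left
    omega
  | mk κ c i j => exact hf

private theorem newName_same {K : Type} (f : Fb K) : Fb.same f (newName f) := by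
  cases f <;> simp [Fb.same, newName]

theorem pInvStep : StHom → StPL → StNm → StInvStep := by
  intro hHom hPL hNm K V V' _ _ k hk hcard C S lab S' lab' hS hS' r hr fl m1 m2 m3 q h v
  classical
  have hlen := h.len
  have hm1 : m1 ∈ q ++ [m3, m2, m1] := by simp
  have hm2 : m2 ∈ q ++ [m3, m2, m1] := by simp
  have hm3 : m3 ∈ q ++ [m3, m2, m1] := by simp
  by_cases hA1 : ∃ m0 ∈ q ++ [m3, m2, m1], own v = own m0.1 ∧
      (own m0.1 = own m1.1 ∨ own m0.1 = own m2.1)
  · -- case A1
    obtain ⟨m0, hm0, hv, h12⟩ := hA1
    have hex := h.ex m0 hm0 h12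
    have hok : Fb.ok (MM k) C.code (brL lab' (own m0.2)) (fb v) := by
      rw [← hex.2, ← hv]
      exact v.2
    let v' : FullV k C lab' := ⟨(own m0.2, fb v), hok⟩
    have hv' : own v' = own m0.2 := rfl
    have hf' : fb v' = fb v := rfl
    have hb : ∀ b ∈ q ++ [m3, m2, m1], own v = own b.1 → fb b.1 = fb b.2 := by
      intro b hb h1
      refine (h.ex b hb ?_).1
      rw [← h1, hv]
      exact h12
    refine ⟨v', fl, step_old h hr v v' fl (Or.inl rfl) m0 hm0 hv hv' ?_ ?_ ?_ ?_ ?_⟩
    · rw [hf']
      exact same_refl _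
    · intro b hb1 h1
      rw [hf', hb b hb1 h1]
    · intro b hb1 h1
      rw [hf', hb b hb1 h1]
    · intro _
      exact hf'.symm
    · intro h1 h2
      obtain ⟨_, _, h3, h4⟩ := h.fl h1
      rcases h12 with h5 | h5
      · exact h3 (by rw [← h2, hv, h5])
      · exact h4 (by rw [← h2, hv, h5])
  · by_cases hA2 : ∃ b0 ∈ q ++ [m3, m2, m1], own v = own b0.1
    · -- case A2
      obtain ⟨b0, hb0, hv⟩ := hA2
      have hn1 : own v ≠ own m1.1 := by
        intro h1
        exact hA1 ⟨m1, hm1, h1, Or.inl rfl⟩
      have hn2 : own v ≠ own m2.1 := by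
        intro h1
        exact hA1 ⟨m2, hm2, h1, Or.inr rfl⟩
      set A : List (FullV k C lab × FullV k C lab') :=
        (q ++ [m3]).filter (fun a => decide (own a.1 = own v)) with hA
      have hAm : ∀ a, a ∈ A ↔ a ∈ q ++ [m3, m2, m1] ∧ own a.1 = own v := by
        intro a
        rw [hA, List.mem_filter]
        simp only [List.mem_append, List.mem_cons, List.not_mem_nil, or_false,
          decide_eq_true_eq]
        constructor
        · rintro ⟨h1 | h1, h2⟩
          · exact ⟨Or.inl h1, h2⟩
          · exact ⟨Or.inr (Or.inl h1), h2⟩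
        · rintro ⟨h1 | h1 | h1 | h1, h2⟩
          · exact ⟨Or.inl h1, h2⟩
          · exact ⟨Or.inr h1, h2⟩
          · subst h1
            exact absurd h2.symm hn2
          · subst h1
            exact absurd h2.symm hn1
      have hAl : A.length ≤ q.length + 1 := by
        have := List.length_filter_le (fun a => decide (own a.1 = own v)) (q ++ [m3])
        simpa [hA] using this
      set l : List (Fb K × Fb K) := A.map (fun a => (fb a.1, fb a.2)) with hl
      have hMM : MM k = k - 4 := rfl
      have hown2 : ∀ a ∈ A, own a.1 = own b0.1 ∧ own a.2 = own b0.2 := by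
        intro a ha
        obtain ⟨h1, h2⟩ := (hAm a).1 ha
        have h3 : own a.1 = own b0.1 := by rw [h2, hv]
        exact ⟨h3, (h.own a h1 b0 hb0).1 h3⟩
      obtain ⟨f', hf'ok, hf'rel⟩ := hNm (MM k) C.code (brL lab (own b0.1)) (brL lab' (own b0.2))
        l (fb v) (by rw [hMM]; omega)
        (by rw [← hv]; exact v.2)
        (by
          intro a ha
          rw [hl, List.mem_map] at ha
          obtain ⟨b, hb, rfl⟩ := ha
          obtain ⟨h1, h2⟩ := hown2 b hb
          refine ⟨?_, ?_⟩
          · rw [← h1]
            exact b.1.2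
          · rw [← h2]
            exact b.2.2)
        (by
          refine ⟨?_, ?_, ?_⟩
          · intro a ha
            rw [hl, List.mem_map] at ha
            obtain ⟨b, hb, rfl⟩ := ha
            exact h.same b ((hAm b).1 hb).1
          · intro a ha b hb
            rw [hl, List.mem_map] at ha hb
            obtain ⟨a, ha, rfl⟩ := ha
            obtain ⟨b, hb, rfl⟩ := hb
            refine h.gid a ((hAm a).1 ha).1 b ((hAm b).1 hb).1 ?_
            rw [(hown2 a ha).1, (hown2 b hb).1]
          · intro a ha b hb
            rw [hl, List.mem_map] at ha hb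
            obtain ⟨a, ha, rfl⟩ := ha
            obtain ⟨b, hb, rfl⟩ := hb
            have h1 : own a.1 = own b.1 := by rw [(hown2 a ha).1, (hown2 b hb).1]
            have h2 : own a.2 = own b.2 := by rw [(hown2 a ha).2, (hown2 b hb).2]
            have h3 := h.eq a ((hAm a).1 ha).1 b ((hAm b).1 hb).1
            constructor
            · intro h4
              rw [h3.1 (ext_full h1 h4)]
            · intro h4
              rw [h3.2 (ext_full h2 h4)])
        (by
          intro κ c i _
          left
          rw [hl, List.length_map, hMM]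
          omega)
      let v' : FullV k C lab' := ⟨(own b0.2, f'), hf'ok⟩
      have hv' : own v' = own b0.2 := rfl
      have hf' : fb v' = f' := rfl
      have hrel1 := hf'rel.1 (fb v, f') (by simp)
      have hgl : ∀ b ∈ q ++ [m3, m2, m1], own v = own b.1 → (fb b.1, fb b.2) ∈ (fb v, f') :: l := by
        intro b hb h1
        rw [List.mem_cons]
        right
        rw [hl, List.mem_map]
        exact ⟨b, (hAm b).2 ⟨hb, h1.symm⟩, rfl⟩
      refine ⟨v', if own v = own m3.1 then false else fl, step_old h hr v v' _ ?_ b0 hb0 hv hv'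
        ?_ ?_ ?_ ?_ ?_⟩
      · split_ifs
        · exact Or.inr rfl
        · exact Or.inl rfl
      · rw [hf']
        exact hrel1
      · intro b hb h1
        exact hf'rel.2.1 (fb v, f') (by simp) _ (hgl b hb h1)
      · intro b hb h1
        exact hf'rel.2.2 (fb v, f') (by simp) _ (hgl b hb h1)
      · rintro (h1 | h1)
        · exact absurd h1 hn1
        · exact absurd h1 hn2
      · intro h1 h2
        rw [if_pos h2] at h1
        exact absurd h1 (by simp)
    · -- case B
      have hnew : ∀ b ∈ q ++ [m3, m2, m1], own v ≠ own b.1 := by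
        intro b hb h1
        exact hA2 ⟨b, hb, h1⟩
      have h4 : 4 ≤ 2 ^ r := by
        calc 4 = 2 ^ 2 := by norm_num
          _ ≤ 2 ^ r := Nat.pow_le_pow_right (by norm_num) hr
      let o : FullV k C lab × FullV k C lab' → ℕ := fun a =>
        if fl = true ∧ own a.1 = own m3.1 then 4 else 0
      have ho4 : ∀ a, o a ≤ 4 := by
        intro a
        show (if fl = true ∧ own a.1 = own m3.1 then 4 else 0) ≤ 4
        split_ifs <;> omega
      have hoc : ∀ a, (o a = 4 ∨ ¬ (fl = true ∧ own a.1 = own m3.1)) := by
        intro a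
        by_cases h1 : fl = true ∧ own a.1 = own m3.1
        · left
          exact if_pos h1
        · right
          exact h1
      have hol : ∀ a, ∀ ob : ℕ, (ob = 4 ∨ ¬ (fl = true ∧ own a.1 = own m3.1)) → o a ≤ ob := by
        intro a ob hob
        by_cases h1 : fl = true ∧ own a.1 = own m3.1
        · rcases hob with h2 | h2
          · rw [h2]
            exact ho4 a
          · exact absurd h1 h2
        · have : o a = 0 := if_neg h1
          omega
      obtain ⟨x', hx'1, hx'2⟩ := hHom k (by omega) (brG K S (HH k)) brH (brG K S' (HH k)) brH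
        (hPL k hk K V S hcard hS) (hPL k hk K V' S' hcard hS') r (by omega)
        ((q ++ [m3, m2, m1]).map (fun a => (own a.1, own a.2, o a)))
        (by
          rw [List.length_map, List.length_append]
          simp only [List.length_cons, List.length_nil]
          omega)
        (by
          refine ⟨?_, ?_⟩
          · intro a ha b hb d hd
            rw [List.mem_map] at ha hb
            obtain ⟨a, ha, rfl⟩ := ha
            obtain ⟨b, hb, rfl⟩ := hb
            exact h.dist a ha b hb d (o a) (hoc a) (o b) (hoc b) hd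
          · intro a ha
            rw [List.mem_map] at ha
            obtain ⟨a, ha, rfl⟩ := ha
            exact h.ht a ha)
        (own v)
      have hxd : ∀ b ∈ q ++ [m3, m2, m1], ∀ d ob : ℕ, o b ≤ ob → d + ob ≤ 2 ^ r →
          ((brG K S (HH k)).edist (own v) (own b.1) = (d : ℕ∞) ↔
            (brG K S' (HH k)).edist x' (own b.2) = (d : ℕ∞)) := by
        intro b hb d ob hob hd
        refine hx'1 (own v, x', 0) (by simp) (own b.1, own b.2, o b) ?_ d ?_
        · rw [List.mem_cons]
          right
          rw [List.mem_map]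
          exact ⟨b, hb, rfl⟩
        · show d + 0 + o b ≤ 2 ^ r
          omega
      have hxn : ∀ b ∈ q ++ [m3, m2, m1], x' ≠ own b.2 := by
        intro b hb h1
        have h2 := (hxd b hb 0 4 (ho4 b) (by omega)).2 (by
          rw [h1, SimpleGraph.edist_self]
          simp)
        rw [Nat.cast_zero, SimpleGraph.edist_eq_zero_iff] at h2
        exact hnew b hb h2
      have hok : Fb.ok (MM k) C.code (brL lab' x') (newName (fb v)) := by
        refine newName_ok (L := brL lab (own v)) ?_ v.2
        show 1 ≤ k - 4
        omega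
      let v' : FullV k C lab' := ⟨(x', newName (fb v)), hok⟩
      have hv' : own v' = x' := rfl
      have hf' : fb v' = newName (fb v) := rfl
      refine ⟨v', fl, step_of h v v' fl ?_ ?_ ?_ ?_ ?_ (old_dist h hr fl (Or.inl rfl)) ?_ ?_ ?_⟩
      · rw [hf']
        exact newName_same _
      · intro b hb
        rw [hv']
        exact ⟨fun h1 => absurd h1 (hnew b hb), fun h1 => absurd h1 (hxn b hb)⟩
      · intro b hb h1
        exact absurd h1 (hnew b hb)
      · intro b hb
        constructor
        · intro h1
          exact absurd (by rw [h1]) (hnew b hb)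
        · intro h1
          refine absurd ?_ (hxn b hb)
          rw [← hv', h1]
      · intro b hb d oa hoa ob hob hsum
        rw [hv']
        exact hxd b hb d ob (hol b ob hob) (by omega)
      · rw [hv']
        exact hx'2 (own v, x', 0) (by simp)
      · rintro (h1 | h1)
        · exact absurd h1 (hnew m1 hm1)
        · exact absurd h1 (hnew m2 hm2)
      · intro h1
        exact ⟨h1, hnew m3 hm3⟩

end Pool.Agent.Helper45.LD
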