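import Pool.Agent.Helper32.LD.StT2

/-!
# LD project, tiling part, module L7: labels determine corners
-/

set_option autoImplicit false

namespace Pool.Agent.Helper45.LD

open Pool.Agent.Helper2.LD Pool.Agent.Helper32.LD

/-- position on the edge -/
private def ps {m t al : ℕ} : SV (BX m t) (BE m t) al → Option (Bool × Fin (al - 1))
  | Sum.inl _ => none
  | Sum.inr (ε, i) => some (ε.1.1, i)

/-- coordinates of the tail -/
private def tc {m t al : ℕ} : SV (BX m t) (BE m t) al → ℕ × ℕ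
  | Sum.inl x => (x.1.1, x.1.2)
  | Sum.inr (ε, _) => (ε.1.2.1, ε.1.2.2)

private lemma lb_eq {I : Type} {m t al : ℕ} (inf : ℕ → ℕ → I) (x : SV (BX m t) (BE m t) al) :
    lbB m t al inf x = (ps x, om m t inf (tc x).1 (tc x).2) := by
  rcases x with x | ⟨ε, i⟩ <;> rfl

private lemma pt_ext {m t al : ℕ} (x y : SV (BX m t) (BE m t) al) (h1 : ps x = ps y)
    (h2 : tc x = tc y) : x = y := by
  rcases x with x | ⟨ε, i⟩ <;> rcases y with y | ⟨ε', i'⟩
  · congr 1
    exact Subtype.ext h2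
  · simp [ps] at h1
  · simp [ps] at h1
  · simp only [ps, Option.some.injEq, Prod.mk.injEq] at h1
    simp only [tc, Prod.mk.injEq] at h2
    have h3 : ε = ε' := Subtype.ext (Prod.ext h1.1 (Prod.ext h2.1 h2.2))
    subst h3
    rw [h1.2]

private lemma tc_rng {m t al : ℕ} (x : SV (BX m t) (BE m t) al) :
    (tc x).1 ≤ t ∧ (tc x).2 ≤ m * 2 ^ (tc x).1 := by
  rcases x with x | ⟨ε, i⟩
  · exact x.2
  · exact ⟨ε.2.1, ε.2.2.1⟩

/-- relative coordinates of the tail of a boundary point -/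
private def ta (i r : ℕ) : ℕ × ℕ :=
  if i = 0 then (0, 0) else if i = 1 then (0, 1)
  else if i = 2 then (if r = 0 then (1, 2) else (1, 1))
  else if i = 3 then (if r = 0 then (1, 1) else (1, 0))
  else (if r = 0 then (1, 0) else (0, 0))

private lemma crd {m t al : ℕ} (i r : ℕ) (hi : i < 5) (hr : r < al) :
    ∃ p, ∀ f : BF m t, ps ((bt m t).fpt al f (i * al + r)) = p ∧
      tc ((bt m t).fpt al f (i * al + r)) =
        (f.1.1 + (ta i r).1, 2 ^ (ta i r).1 * f.1.2 + (ta i r).2) := by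
  have h1 : (i * al + r) / al = i := by
    rw [mul_comm, Nat.mul_add_div (by omega), Nat.div_eq_of_lt hr, add_zero]
  have h2 : (i * al + r) % al = r := by
    rw [mul_comm, Nat.mul_add_mod, Nat.mod_eq_of_lt hr]
  have h3 : ∀ f : BF m t, (bt m t).fpt al f (i * al + r) =
      (bt m t).pt al ((bt m t).arc f (i : ZMod 5)) r := by
    intro f
    unfold MC.fpt
    rw [h1, h2]
  simp only [h3]
  have c0 : ((0 : ℕ) : ZMod 5).val = 0 := rfl
  have c1 : ((1 : ℕ) : ZMod 5).val = 1 := rfl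
  have c2 : ((2 : ℕ) : ZMod 5).val = 2 := rfl
  have c3 : ((3 : ℕ) : ZMod 5).val = 3 := rfl
  have c4 : ((4 : ℕ) : ZMod 5).val = 4 := rfl
  rcases Nat.eq_zero_or_pos r with h0 | h0
  · subst h0
    refine ⟨none, fun f => ?_⟩
    have hal : 0 < al := hr
    interval_cases i
    · simp only [bt, c0, MC.pt, MC.ptE, ta, ps, tc]
      simp
    · simp only [bt, c1, MC.pt, MC.ptE, ta, ps, tc]
      simp
    · simp only [bt, c2, MC.pt, MC.ptE, ta, ps, tc]
      simp [hal.ne']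
    · simp only [bt, c3, MC.pt, MC.ptE, ta, ps, tc]
      simp [hal.ne']
    · simp only [bt, c4, MC.pt, MC.ptE, ta, ps, tc]
      simp [hal.ne']
  · interval_cases i
    · refine ⟨some (false, ⟨r - 1, by omega⟩), fun f => ?_⟩
      simp only [bt, c0, MC.pt, MC.ptE, ta]
      simp [h0, hr, ps, tc]
    · refine ⟨some (true, ⟨r - 1, by omega⟩), fun f => ?_⟩
      simp only [bt, c1, MC.pt, MC.ptE, ta]
      simp [h0, hr, ps, tc]
    · refine ⟨some (false, ⟨al - r - 1, by omega⟩), fun f => ?_⟩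
      have h4 : 0 < al - r ∧ al - r < al := by omega
      simp only [bt, c2, MC.pt, MC.ptE, ta]
      simp [h4, h0.ne', ps, tc]
    · refine ⟨some (false, ⟨al - r - 1, by omega⟩), fun f => ?_⟩
      have h4 : 0 < al - r ∧ al - r < al := by omega
      simp only [bt, c3, MC.pt, MC.ptE, ta]
      simp [h4, h0.ne', ps, tc]
    · refine ⟨some (true, ⟨al - r - 1, by omega⟩), fun f => ?_⟩
      have h4 : 0 < al - r ∧ al - r < al := by omega
      simp only [bt, c4, MC.pt, MC.ptE, ta]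
      simp [h4, h0.ne', ps, tc]

private lemma ite2 {p q : Prop} [Decidable p] [Decidable q] {α : Type} {a b : α}
    (h : (if p then some a else none) = (if q then some b else none)) (hq : q) : p ∧ a = b := by
  rw [if_pos hq] at h
  split at h
  · exact ⟨by assumption, by simpa using h⟩
  · simp at h

private lemma bl_par {I : Type} (inf : ℕ → ℕ → I) (n k n' k' : ℕ)
    (h : bl inf n' k' = bl inf n k) : k' % 2 = k % 2 := by
  have h1 : k' % 2 ^ 20 = k % 2 ^ 20 := congrArg (fun z => z.2.1.val) h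
  norm_num at h1
  omega

/-- relative tails whose basic labels are determined -/
private def Tb : List (ℕ × ℕ × ℕ × ℕ) :=
  [(0, 0, 0, 0), (0, 0, 0, 1), (0, 0, 1, 0),
   (0, 1, 0, 1), (0, 1, 0, 0), (0, 1, 1, 2),
   (1, 0, 1, 0), (1, 0, 1, 1), (1, 0, 0, 0),
   (1, 1, 1, 1), (1, 1, 1, 2), (1, 1, 1, 0),
   (1, 2, 1, 2), (1, 2, 1, 1), (1, 2, 0, 1)]

private lemma lemA {I : Type} {m t : ℕ} (inf : ℕ → ℕ → I) (a b n k N' K' : ℕ)
    (hab : (a, b) ∈ [(0, 0), (0, 1), (1, 0), (1, 1), (1, 2)])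
    (hn : n < t) (hk : k < m * 2 ^ n) (hN : N' ≤ t) (hK : K' ≤ m * 2 ^ N')
    (h : om m t inf N' K' = om m t inf (n + a) (2 ^ a * k + b)) :
    ∃ n' k', n' < t ∧ k' < m * 2 ^ n' ∧ N' = n' + a ∧ K' = 2 ^ a * k' + b ∧
      bl inf n' k' = bl inf n k ∧
      ∀ a2 b2, (a, b, a2, b2) ∈ Tb →
        bl inf (n' + a2) (2 ^ a2 * k' + b2) = bl inf (n + a2) (2 ^ a2 * k + b2) := by
  simp only [om, Prod.mk.injEq] at h
  obtain ⟨h1, h2, h3, h4, h5, h6⟩ := h
  have hpw : ∀ n : ℕ, m * 2 ^ (n + 1) = 2 * (m * 2 ^ n) := fun n => by rw [pow_succ]; ring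
  simp only [List.mem_cons, Prod.mk.injEq, List.not_mem_nil, or_false] at hab
  rcases hab with ⟨rfl, rfl⟩ | ⟨rfl, rfl⟩ | ⟨rfl, rfl⟩ | ⟨rfl, rfl⟩ | ⟨rfl, rfl⟩
  · -- (0,0)
    simp only [pow_zero, one_mul, add_zero] at *
    obtain ⟨g3, h3⟩ := ite2 h3 hk
    obtain ⟨g4, h4⟩ := ite2 h4 hn
    refine ⟨N', K', g4, g3, rfl, rfl, h1, ?_⟩
    intro a2 b2 hT
    simp [Tb] at hT
    rcases hT with ⟨rfl, rfl⟩ | ⟨rfl, rfl⟩ | ⟨rfl, rfl⟩
    · simpa using h1
    · simpa using h3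
    · simpa using h4
  · -- (0,1)
    simp only [pow_zero, one_mul, add_zero] at *
    obtain ⟨g2, h2⟩ := ite2 h2 (by omega)
    obtain ⟨g4, h4⟩ := ite2 h4 hn
    refine ⟨N', K' - 1, g4, by omega, rfl, by omega, by simpa using h2, ?_⟩
    intro a2 b2 hT
    simp [Tb] at hT
    rcases hT with ⟨rfl, rfl⟩ | ⟨rfl, rfl⟩ | ⟨rfl, rfl⟩
    · have e1 : 2 ^ 0 * (K' - 1) + 1 = K' := by omega
      have e2 : 2 ^ 0 * k + 1 = k + 1 := by omega
      rw [e1, e2]
      exact h1
    · simpa using h2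
    · have e1 : 2 ^ 1 * (K' - 1) + 2 = 2 * K' := by omega
      have e2 : 2 ^ 1 * k + 2 = 2 * (k + 1) := by omega
      rw [e1, e2]
      exact h4
  · -- (1,0)
    have e0 : 2 ^ 1 * k + 0 = 2 * k := by omega
    rw [e0] at h1 h2 h3 h4 h5 h6
    obtain ⟨g3, h3⟩ := ite2 h3 (by rw [hpw]; omega)
    obtain ⟨g5, h5⟩ := ite2 h5 (by omega)
    have hp := bl_par inf _ _ _ _ h1
    obtain ⟨n', rfl⟩ : ∃ n', N' = n' + 1 := ⟨N' - 1, by omega⟩
    obtain ⟨k', rfl⟩ : ∃ k', K' = 2 * k' := ⟨K' / 2, by omega⟩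
    rw [hpw] at g3
    have e1 : 2 * k' / 2 = k' := by omega
    have e2 : 2 * k / 2 = k := by omega
    rw [e1, e2, Nat.add_sub_cancel, Nat.add_sub_cancel] at h5
    refine ⟨n', k', by omega, by omega, rfl, by omega, h5, ?_⟩
    intro a2 b2 hT
    simp [Tb] at hT
    rcases hT with ⟨rfl, rfl⟩ | ⟨rfl, rfl⟩ | ⟨rfl, rfl⟩
    · simpa using h1
    · simpa using h3
    · simpa using h5
  · -- (1,1)
    have e0 : 2 ^ 1 * k + 1 = 2 * k + 1 := by omega
    rw [e0] at h1 h2 h3 h4 h5 h6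
    obtain ⟨g2, h2⟩ := ite2 h2 (by omega)
    obtain ⟨g3, h3⟩ := ite2 h3 (by rw [hpw]; omega)
    obtain ⟨g5, h5⟩ := ite2 h5 (by omega)
    have hp := bl_par inf _ _ _ _ h1
    obtain ⟨n', rfl⟩ : ∃ n', N' = n' + 1 := ⟨N' - 1, by omega⟩
    obtain ⟨k', rfl⟩ : ∃ k', K' = 2 * k' + 1 := ⟨K' / 2, by omega⟩
    rw [hpw] at g3
    have e1 : (2 * k' + 1) / 2 = k' := by omega
    have e2 : (2 * k + 1) / 2 = k := by omega
    rw [e1, e2, Nat.add_sub_cancel, Nat.add_sub_cancel] at h5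
    refine ⟨n', k', by omega, by omega, rfl, by omega, h5, ?_⟩
    intro a2 b2 hT
    simp [Tb] at hT
    rcases hT with ⟨rfl, rfl⟩ | ⟨rfl, rfl⟩ | ⟨rfl, rfl⟩
    · simpa using h1
    · simpa using h3
    · simpa using h2
  · -- (1,2)
    have e0 : 2 ^ 1 * k + 2 = 2 * k + 2 := by omega
    rw [e0] at h1 h2 h3 h4 h5 h6
    obtain ⟨g2, h2⟩ := ite2 h2 (by omega)
    obtain ⟨g5, h5⟩ := ite2 h5 (by omega)
    obtain ⟨g6, h6⟩ := ite2 h6 (by omega)
    have hp := bl_par inf _ _ _ _ h1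
    obtain ⟨n', rfl⟩ : ∃ n', N' = n' + 1 := ⟨N' - 1, by omega⟩
    obtain ⟨k', rfl⟩ : ∃ k', K' = 2 * k' + 2 := ⟨K' / 2 - 1, by omega⟩
    rw [hpw] at hK
    have e1 : (2 * k' + 2) / 2 = k' + 1 := by omega
    have e2 : (2 * k + 2) / 2 = k + 1 := by omega
    rw [e1, e2, Nat.add_sub_cancel, Nat.add_sub_cancel] at h5
    rw [e1, e2, Nat.add_sub_cancel, Nat.add_sub_cancel, Nat.add_sub_cancel,
      Nat.add_sub_cancel] at h6
    refine ⟨n', k', by omega, by omega, rfl, by omega, h6, ?_⟩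
    intro a2 b2 hT
    simp [Tb] at hT
    rcases hT with ⟨rfl, rfl⟩ | ⟨rfl, rfl⟩ | ⟨rfl, rfl⟩
    · simpa using h1
    · simpa using h2
    · simpa using h5

private lemma ta_mem (i r : ℕ) :
    ((ta i r).1, (ta i r).2) ∈ [(0, 0), (0, 1), (1, 0), (1, 1), (1, 2)] := by
  unfold ta
  split_ifs <;> simp

private lemma ta_nx (i r : ℕ) (hi : i < 5) :
    ((ta i r).1, (ta i r).2, (ta i (r + 1)).1, (ta i (r + 1)).2) ∈ Tb := by
  rcases Nat.eq_zero_or_pos r with h | h
  · subst h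
    interval_cases i <;> simp [ta, Tb]
  · have h' := h.ne'
    interval_cases i <;> simp [ta, Tb, h']

private lemma ta_nx0 (i r i2 : ℕ) (hi : i < 5) (hr : 0 < r)
    (h2 : i2 = if i = 4 then 0 else i + 1) :
    ((ta i r).1, (ta i r).2, (ta i2 0).1, (ta i2 0).2) ∈ Tb := by
  have h' := hr.ne'
  subst h2
  interval_cases i <;> simp [ta, Tb, h']

private lemma ta_pv (i r : ℕ) (hi : i < 5) (hr : 0 < r) :
    ((ta i r).1, (ta i r).2, (ta i (r - 1)).1, (ta i (r - 1)).2) ∈ Tb := by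
  obtain ⟨r, rfl⟩ : ∃ r', r = r' + 1 := ⟨r - 1, by omega⟩
  rw [Nat.add_sub_cancel]
  rcases Nat.eq_zero_or_pos r with h | h
  · subst h
    interval_cases i <;> simp [ta, Tb]
  · have h' := h.ne'
    interval_cases i <;> simp [ta, Tb, h']

private lemma ta_pv0 (i r i2 : ℕ) (hi : i < 5) (hr : 0 < r)
    (h2 : i2 = if i = 0 then 4 else i - 1) :
    ((ta i 0).1, (ta i 0).2, (ta i2 r).1, (ta i2 r).2) ∈ Tb := by
  have h' := hr.ne'
  subst h2
  interval_cases i <;> simp [ta, Tb, h']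

theorem tL7 (hSB : StSB) : StL7 := by
  intro I m t al inf hm ht hal q x' hlab
  obtain ⟨f, s⟩ := q
  have : NeZero (5 * al) := ⟨by omega⟩
  have hal1 : 1 ≤ al := by omega
  obtain ⟨i, r, hi, hr, hj⟩ : ∃ i r, i < 5 ∧ r < al ∧ s.val = i * al + r := by
    have h := ZMod.val_lt s
    generalize s.val = j at h
    refine ⟨j / al, j % al, Nat.div_lt_of_lt_mul (by rw [mul_comm]; exact h),
      Nat.mod_lt _ (by omega), ?_⟩
    rw [mul_comm]
    exact (Nat.div_add_mod _ _).symm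
  have how : ∀ g : BF m t, (btc m t al inf).ow (g, s) = (bt m t).fpt al g (i * al + r) := by
    intro g
    rw [← hj]
    rfl
  have hlab' : lbB m t al inf ((bt m t).fpt al f (i * al + r)) = lbB m t al inf x' := by
    rw [← how f]
    exact hlab
  rw [lb_eq, lb_eq, Prod.mk.injEq] at hlab'
  obtain ⟨hps, hom⟩ := hlab'
  obtain ⟨p, hp⟩ := crd (m := m) (t := t) i r hi hr
  have hr' := tc_rng x'
  rw [(hp f).2] at hom
  obtain ⟨n', k', hn', hk', hN, hK, hbl, hall⟩ := lemA inf (ta i r).1 (ta i r).2 f.1.1 f.1.2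
    (tc x').1 (tc x').2 (ta_mem i r) f.2.1 f.2.2 hr'.1 hr'.2 hom.symm
  set f' : BF m t := ⟨(n', k'), hn', hk'⟩ with hf'
  have hx' : (bt m t).fpt al f' (i * al + r) = x' := by
    refine pt_ext _ _ ?_ ?_
    · rw [(hp f').1, ← hps, (hp f).1]
    · rw [(hp f').2]
      exact (Prod.ext hN hK).symm
  have hnb : ∀ i2 r2, i2 < 5 → r2 < al →
      ((ta i r).1, (ta i r).2, (ta i2 r2).1, (ta i2 r2).2) ∈ Tb →
      bsB al (lbB m t al inf ((bt m t).fpt al f' (i2 * al + r2))) =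
        bsB al (lbB m t al inf ((bt m t).fpt al f (i2 * al + r2))) := by
    intro i2 r2 hi2 hr2 hT
    obtain ⟨p2, hp2⟩ := crd (m := m) (t := t) i2 r2 hi2 hr2
    rw [lb_eq, lb_eq, (hp2 f').1, (hp2 f').2, (hp2 f).1, (hp2 f).2]
    simp only [bsB, om]
    rw [hall _ _ hT]
  have hnx : ∀ g : BF m t, (btc m t al inf).ow ((btc m t al inf).nx (g, s)) =
      (bt m t).fpt al g (i * al + r + 1) := by
    intro g
    have h := hSB.nxt (bt m t) al (lbB m t al inf) (bsB al) (flB m t inf) (g, s) 1 hal1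
    rw [← hj]
    exact h
  have hpv : ∀ g : BF m t, (btc m t al inf).ow ((btc m t al inf).nx.symm (g, s)) =
      (bt m t).fpt al g (i * al + r + (5 * al - 1) * 1) := by
    intro g
    have h := hSB.nxtS (bt m t) al (lbB m t al inf) (bsB al) (flB m t inf) (g, s) 1 hal1
    rw [← hj]
    exact h
  refine ⟨(f', s), ?_, ?_, ?_, ?_⟩
  · rw [how f', hx']
  · exact hbl
  · rw [hnx, hnx]
    show bsB al (lbB m t al inf _) = bsB al (lbB m t al inf _)
    by_cases h1 : r + 1 < al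
    · exact hnb i (r + 1) hi h1 (ta_nx i r hi)
    · by_cases h4 : i = 4
      · have e : i * al + r + 1 = 0 * al + 0 + 5 * al := by
          subst h4
          omega
        rw [e, hSB.fper _ _ _ _ hal1, hSB.fper _ _ _ _ hal1]
        exact hnb 0 0 (by omega) (by omega) (ta_nx0 i r 0 hi (by omega) (by simp [h4]))
      · have e : i * al + r + 1 = (i + 1) * al + 0 := by
          rw [add_mul, one_mul]
          omega
        rw [e]
        exact hnb (i + 1) 0 (by omega) (by omega) (ta_nx0 i r (i + 1) hi (by omega) (by simp [h4]))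
  · rw [hpv, hpv]
    show bsB al (lbB m t al inf _) = bsB al (lbB m t al inf _)
    rcases Nat.eq_zero_or_pos r with h0 | h0
    · subst h0
      by_cases h4 : i = 0
      · have e : i * al + 0 + (5 * al - 1) * 1 = 4 * al + (al - 1) := by
          subst h4
          omega
        rw [e]
        exact hnb 4 (al - 1) (by omega) (by omega) (ta_pv0 i (al - 1) 4 hi (by omega) (by simp [h4]))
      · have e : i * al + 0 + (5 * al - 1) * 1 = (i - 1) * al + (al - 1) + 5 * al := by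
          obtain ⟨i, rfl⟩ : ∃ i', i = i' + 1 := ⟨i - 1, by omega⟩
          rw [Nat.add_sub_cancel, add_mul, one_mul]
          omega
        rw [e, hSB.fper _ _ _ _ hal1, hSB.fper _ _ _ _ hal1]
        exact hnb (i - 1) (al - 1) (by omega) (by omega)
          (ta_pv0 i (al - 1) (i - 1) hi (by omega) (by simp [h4]))
    · have e : i * al + r + (5 * al - 1) * 1 = i * al + (r - 1) + 5 * al := by omega
      rw [e, hSB.fper _ _ _ _ hal1, hSB.fper _ _ _ _ hal1]
      exact hnb i (r - 1) hi (by omega) (ta_pv i r hi h0)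

end Pool.Agent.Helper45.LD
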